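import Pool.Agent.H37.CNH.Stmts
import Pool.Agent.H50.CND.SYG

/-!
# Row SYB of the board `cnh`
-/

set_option autoImplicit false

namespace Pool.CND

open scoped Pointwise

theorem syb_thm : S_SYB := by
  intro p G _ _ A W d m hp hab hAn hm hG hW
  have : Fact p.Prime := ⟨hp⟩
  obtain ⟨n, hn⟩ := hW
  obtain ⟨nA, hnA⟩ := hAn
  have hAp : IsPGroup p A := IsPGroup.of_card hnA
  have hWp : IsPGroup p W := IsPGroup.of_card hn
  obtain ⟨a, ha⟩ := IsPGroup.iff_card.1 hAp
  obtain ⟨S, hS⟩ := hAp.exists_le_sylow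
  obtain ⟨T, hT⟩ := hWp.exists_le_sylow
  obtain ⟨g, hg⟩ := MulAction.exists_smul_eq G S T
  have hm0 : m ≠ 0 := by
    rintro rfl
    exact hm (dvd_zero p)
  have hcT : Nat.card T = p ^ d * Nat.card A := by
    rw [T.card_eq_multiplicity, hG, ha]
    rw [← pow_add, Nat.factorization_mul (pow_ne_zero _ hp.ne_zero) hm0, Finsupp.add_apply,
      Nat.factorization_pow, Finsupp.smul_apply, hp.factorization_self,
      Nat.factorization_eq_zero_of_not_dvd hm]
    simp
  set A1 : Subgroup G := A.map (MulAut.conj g).toMonoidHom with hA1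
  have hA1T : A1 ≤ (T : Subgroup G) := by
    rw [← hg]
    rintro x ⟨y, hy, rfl⟩
    have : (MulAut.conj g).toMonoidHom y ∈ MulAut.conj g • (S : Subgroup G) :=
      Subgroup.smul_mem_pointwise_smul y (MulAut.conj g) _ (hS hy)
    exact this
  have hcA1 : Nat.card A1 = Nat.card A := by
    exact (Nat.card_congr (A.equivMapOfInjective _ (MulAut.conj g).injective).toEquiv).symm
  have hab1 : ∀ x ∈ A1, ∀ x' ∈ A1, x * x' = x' * x := by
    rintro x ⟨y, hy, rfl⟩ x' ⟨y', hy', rfl⟩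
    rw [← map_mul, hab y hy y' hy', map_mul]
  refine ⟨W ⊓ A1, ?_⟩
  have hidx : (W ⊓ A1).relIndex W * Nat.card (W ⊓ A1 : Subgroup G) = Nat.card W := by
    rw [mul_comm]
    exact syg_card inf_le_left
  have hdvd : (W ⊓ A1).relIndex W ∣ p ^ n := by
    rw [← hn, ← hidx]
    exact dvd_mul_right _ _
  obtain ⟨d', -, hd'⟩ := (Nat.dvd_prime_pow hp).1 hdvd
  have hT2 : A1.relIndex (T : Subgroup G) = p ^ d := by
    have h1 : Nat.card A1 * A1.relIndex (T : Subgroup G) = Nat.card T :=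
      syg_card hA1T
    rw [hcT, hcA1, mul_comm (p ^ d)] at h1
    exact Nat.eq_of_mul_eq_mul_left Nat.card_pos h1
  have hle : (W ⊓ A1).relIndex W ≤ p ^ d := by
    rw [Subgroup.inf_relIndex_left, ← hT2]
    exact Subgroup.relIndex_le_of_le_right hT (by rw [hT2]; exact pow_ne_zero _ hp.ne_zero)
  refine ⟨d', inf_le_left, ?_, ?_, ?_⟩
  · rw [hd'] at hle
    exact (Nat.pow_le_pow_iff_right hp.one_lt).1 hle
  · exact fun x hx y hy => hab1 x hx.2 y hy.2
  · rw [← hd']
    exact hidx.symm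

end Pool.CND
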